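import Pool.Agent.H58.Cy2

set_option autoImplicit false

namespace Pool.Agent.Results.MP_382727_an.Cylinder

open Pool.Agent.H58.Cy Filter Topology

theorem result :
    (∀ k : ℕ, 1 ≤ k → (∃ Ω₁ Ω₂ : Set (ℝ × ℝ × ℝ), IsCvx Ω₁ ∧ IsCvx Ω₂ ∧ Ω₁ ⊆ Ω₂ ∧ 0 < mu Ω₂ k ∧
      mu Ω₁ k / mu Ω₂ k ≤ 9 / 10) ∧ alpha k ≤ 9 / 10) ∧ ¬ Tendsto alpha atTop (𝓝 1) := by
  have h : ∀ k : ℕ, 1 ≤ k → alpha k ≤ 9 / 10 := fun k hk => by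
    obtain ⟨Ω₁, Ω₂, h1, h2, h3, -, h5⟩ := main hk
    refine le_trans ?_ h5
    unfold alpha
    refine csInf_le ⟨0, ?_⟩ ⟨Ω₁, Ω₂, h1, h2, h3, rfl⟩
    rintro r ⟨A, B, -, -, -, rfl⟩
    exact div_nonneg (mu_nonneg _ _) (mu_nonneg _ _)
  refine ⟨fun k hk => ⟨main hk, h k hk⟩, fun ht => ?_⟩
  have := le_of_tendsto ht (eventually_atTop.mpr ⟨1, h⟩)
  norm_num at this

end Pool.Agent.Results.MP_382727_an.Cylinder
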